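import Pool.Agent.H355R3.UF.Stmts

/-! Task `Q` of project H355-UF: functoriality in the second argument of wreath products with an
abelian bottom group. -/

set_option autoImplicit false

namespace Pool.Agent.H318R3.UF

open H355R3 RegularWreathProduct

section
variable {A K V : Type} [CommGroup A] [Group K] [Fintype K] [Group V] [DecidableEq V]

/-- product over the fibres -/
def fib (f : K →* V) (φ : K → A) (v : V) : A := ∏ x : K with f x = v, φ x

theorem fib_mul (f : K →* V) (φ ψ : K → A) (v : V) :
    fib f (fun x => φ x * ψ x) v = fib f φ v * fib f ψ v := Finset.prod_mul_distrib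

theorem fib_shift (f : K →* V) (φ : K → A) (k : K) (v : V) :
    fib f (fun x => φ (k⁻¹ * x)) v = fib f φ ((f k)⁻¹ * v) := by
  unfold fib
  refine Finset.prod_bij' (fun x _ => k⁻¹ * x) (fun x _ => k * x) ?_ ?_ ?_ ?_ ?_
  · intro x hx
    rw [Finset.mem_filter] at hx ⊢
    refine ⟨Finset.mem_univ _, ?_⟩
    rw [map_mul, map_inv, hx.2]
  · intro x hx
    rw [Finset.mem_filter] at hx ⊢
    refine ⟨Finset.mem_univ _, ?_⟩
    rw [map_mul, hx.2, mul_inv_cancel_left]
  · intro x _
    exact mul_inv_cancel_left _ _
  · intro x _
    exact inv_mul_cancel_left _ _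
  · intro x _
    rfl

/-- the homomorphism of wreath products -/
def wmap (f : K →* V) : RegularWreathProduct A K →* RegularWreathProduct A V where
  toFun w := ⟨fib f w.left, f w.right⟩
  map_one' := by
    apply RegularWreathProduct.ext
    · funext v
      simp [fib]
    · simp
  map_mul' a b := by
    apply RegularWreathProduct.ext
    · funext v
      show fib f (fun x => a.left x * b.left (a.right⁻¹ * x)) v =
        fib f a.left v * fib f b.left ((f a.right)⁻¹ * v)
      rw [fib_mul, fib_shift]
    · show f (a.right * b.right) = f a.right * f b.right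
      rw [map_mul]

theorem wmap_surj (f : K →* V) (hf : Function.Surjective f) :
    Function.Surjective (wmap (A := A) f) := by
  classical
  intro w
  choose s hs using hf
  refine ⟨⟨fun x => if x = s (f x) then w.left (f x) else 1, s w.right⟩, ?_⟩
  apply RegularWreathProduct.ext
  · funext v
    show fib f (fun x => if x = s (f x) then w.left (f x) else 1) v = w.left v
    unfold fib
    rw [Finset.prod_eq_single (s v)]
    · simp [hs]
    · intro x hx hne
      rw [Finset.mem_filter] at hx
      rw [if_neg]
      rw [hx.2]
      exact hne
    · intro h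
      exfalso
      apply h
      rw [Finset.mem_filter]
      exact ⟨Finset.mem_univ _, hs v⟩
  · exact hs w.right

end

theorem taskQ : H355R3.UF.TaskQ := by
  classical
  intro p _ K V _ _ _ _ f hf
  let _ : Fintype K := Fintype.ofFinite K
  exact ⟨wmap f, wmap_surj f hf⟩

end Pool.Agent.H318R3.UF
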